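import Pool.Agent.Helper89.MS.Sheet

/-!
# MP_8815b4_co, packages B1, B2, B4
-/

open Finset

namespace Pool.Agent.Helper43.MS

open _root_.MS

theorem mem_NN {m : ℕ} {F : Finset (Finset ℕ)} {S : Finset ℕ} :
    S ∈ NN m F ↔ S ∈ F ∧ m - 1 ∈ S ∧ S.erase (m - 1) ∉ F := by
  unfold NN
  rw [mem_filter]

/-- B1 -/
theorem b1 : B1Stm := by
  intro t m v F ht htm hF
  constructor
  · intro S hS
    obtain ⟨hSF, hτ, hS'⟩ := mem_NN.1 hS
    have hSm := hF.ti.1 S hSF
    constructor
    · obtain ⟨A, hA, hAS, hvA⟩ := hF.pos S hSF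
      by_cases hAS' : A = S
      · rwa [hAS'] at hvA
      · exfalso
        obtain ⟨x, hxS, hxA⟩ := exists_of_ssubset (lt_of_le_of_ne hAS hAS')
        apply hS'
        have hsub : S.erase (m - 1) ⊆ range m := (erase_subset _ _).trans hSm
        by_cases hτA : m - 1 ∈ A
        · have hx1 : x ≠ m - 1 := by
            rintro rfl
            exact hxA hτA
          have hx2 : x < m := mem_range.1 (hSm hxS)
          have h1 := hF.lc A hA x (m - 1) (by omega) hτA hxA
          refine hF.up _ h1 _ ?_ hsub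
          intro y hy
          rw [mem_insert, mem_erase] at hy
          rw [mem_erase]
          rcases hy with rfl | hy
          · exact ⟨hx1, hxS⟩
          · exact ⟨hy.1, hAS hy.2⟩
        · refine hF.up _ hA _ ?_ hsub
          intro y hy
          rw [mem_erase]
          refine ⟨?_, hAS hy⟩
          rintro rfl
          exact hτA hy
    · have h1 := hF.ti.2 S hSF S hSF
      rw [inter_self] at h1
      by_contra hlt
      have h2 : #S = t := by omega
      obtain ⟨i, hi, hiS⟩ : ∃ i ∈ range m, i ∉ S := by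
        by_contra hcon
        push Not at hcon
        have := card_le_card (show range m ⊆ S from hcon)
        rw [card_range] at this
        omega
      have hi1 : i ≠ m - 1 := by
        rintro rfl
        exact hiS hτ
      have hi2 : i < m := mem_range.1 hi
      have h3 := hF.lc S hSF i (m - 1) (by omega) hτ hiS
      have h4 := hF.ti.2 _ h3 S hSF
      have h5 : insert i (S.erase (m - 1)) ∩ S ⊆ S.erase (m - 1) := by
        intro y hy
        rw [mem_inter, mem_insert] at hy
        rcases hy.1 with rfl | h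
        · exact absurd hy.2 hiS
        · exact h
      have h6 := card_le_card h5
      rw [card_erase_of_mem hτ] at h6
      omega
  · intro S hS C hC hτC hSC
    obtain ⟨hSF, hτ, hS'⟩ := mem_NN.1 hS
    have hSm := hF.ti.1 S hSF
    have hCm := hF.ti.1 C hC
    have hcup : S ∪ C = range m := by
      refine Subset.antisymm (union_subset hSm hCm) ?_
      intro i hi
      by_contra hcon
      rw [mem_union, not_or] at hcon
      have hi1 : i ≠ m - 1 := by
        rintro rfl
        exact hcon.1 hτ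
      have hi2 : i < m := mem_range.1 hi
      have h3 := hF.lc S hSF i (m - 1) (by omega) hτ hcon.1
      have h4 := hF.ti.2 _ h3 C hC
      have h5 : insert i (S.erase (m - 1)) ∩ C ⊆ (S ∩ C).erase (m - 1) := by
        intro y hy
        rw [mem_inter, mem_insert, mem_erase] at hy
        rw [mem_erase, mem_inter]
        rcases hy.1 with rfl | h
        · exact absurd hy.2 hcon.2
        · exact ⟨h.1, h.2, hy.2⟩
      have h6 := card_le_card h5
      rw [card_erase_of_mem (mem_inter.2 ⟨hτ, hτC⟩)] at h6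
      omega
    have hcard : #S + #C = m + t := by
      have := card_union_add_card_inter S C
      rw [hcup, card_range] at this
      omega
    refine ⟨hcard, mem_NN.2 ⟨hC, hτC, fun hC' => ?_⟩⟩
    have h4 := hF.ti.2 _ hC' S hSF
    have h5 : C.erase (m - 1) ∩ S ⊆ (S ∩ C).erase (m - 1) := by
      intro y hy
      rw [mem_inter, mem_erase] at hy
      rw [mem_erase, mem_inter]
      exact ⟨hy.1.1, hy.2, hy.1.2⟩
    have h6 := card_le_card h5
    rw [card_erase_of_mem (mem_inter.2 ⟨hτ, hτC⟩)] at h6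
    omega

/-- removing the top element from `S ∈ NN` keeps the intersection large when the intersection is
at least `t + 1` or the other set does not contain it -/
theorem card_erase_inter {t m : ℕ} {S C : Finset ℕ}
    (h1 : t ≤ #(S ∩ C)) (h2 : m - 1 ∈ C → t + 1 ≤ #(S ∩ C)) :
    t ≤ #(S.erase (m - 1) ∩ C) := by
  by_cases hC : m - 1 ∈ C
  · have h3 : (S ∩ C).erase (m - 1) ⊆ S.erase (m - 1) ∩ C := by
      intro y hy
      rw [mem_erase, mem_inter] at hy
      rw [mem_inter, mem_erase]
      exact ⟨⟨hy.1, hy.2.1⟩, hy.2.2⟩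
    have h4 := card_le_card h3
    have h5 := pred_card_le_card_erase (s := S ∩ C) (a := m - 1)
    have := h2 hC
    omega
  · have h3 : S ∩ C ⊆ S.erase (m - 1) ∩ C := by
      intro y hy
      rw [mem_inter] at hy
      rw [mem_inter, mem_erase]
      refine ⟨⟨?_, hy.1⟩, hy.2⟩
      rintro rfl
      exact hC hy.2
    exact h1.trans (card_le_card h3)

/-- weight of the family where the level `b` of `NN` is replaced by the punctured level `a` -/
theorem key {t m a b : ℕ} {v : ℕ → ℝ} {F : Finset (Finset ℕ)} (ht : 1 ≤ t) (htm : t < m)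
    (hF : Good t m v F) (hab : a ≠ b) (hs : a + b = m + t) :
    (#((NN m F).filter fun S => #S = a) : ℝ) * v (a - 1) ≤
      (#((NN m F).filter fun S => #S = b) : ℝ) * v b := by
  obtain ⟨-, hB1⟩ := b1 t m v F ht htm hF
  set Na := (NN m F).filter fun S => #S = a with hNa
  set Nb := (NN m F).filter fun S => #S = b with hNb
  have hNbF : Nb ⊆ F := fun S hS => (mem_NN.1 (mem_filter.1 hS).1).1
  set I := Na.image (fun S => S.erase (m - 1)) with hI
  have hdisj : Disjoint (F \ Nb) I := by
    rw [disjoint_left]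
    intro S hS hS'
    rw [hI, mem_image] at hS'
    obtain ⟨T, hT, rfl⟩ := hS'
    exact (mem_NN.1 (mem_filter.1 hT).1).2.2 (mem_sdiff.1 hS).1
  have hti : TI t m ((F \ Nb) ∪ I) := by
    have hA : ∀ S ∈ Na, ∀ C ∈ F \ Nb, t ≤ #(S.erase (m - 1) ∩ C) := by
      intro S hS C hC
      obtain ⟨hSN, hSa⟩ := mem_filter.1 hS
      obtain ⟨hCF, hCb⟩ := mem_sdiff.1 hC
      have h1 := hF.ti.2 S (mem_NN.1 hSN).1 C hCF
      refine card_erase_inter h1 fun hτ => ?_
      by_contra hlt
      obtain ⟨h2, h3⟩ := hB1 S hSN C hCF hτ (by omega)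
      exact hCb (mem_filter.2 ⟨h3, by omega⟩)
    have hB : ∀ S ∈ Na, ∀ C ∈ Na, t ≤ #(S.erase (m - 1) ∩ C.erase (m - 1)) := by
      intro S hS C hC
      obtain ⟨hSN, hSa⟩ := mem_filter.1 hS
      obtain ⟨hCN, hCa⟩ := mem_filter.1 hC
      have h1 := hF.ti.2 S (mem_NN.1 hSN).1 C (mem_NN.1 hCN).1
      have h2 : t ≤ #(S.erase (m - 1) ∩ C) := by
        refine card_erase_inter h1 fun hτ => ?_
        by_contra hlt
        obtain ⟨h2, h3⟩ := hB1 S hSN C (mem_NN.1 hCN).1 hτ (by omega)
        omega
      have h3 : S.erase (m - 1) ∩ C.erase (m - 1) = S.erase (m - 1) ∩ C := by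
        ext y
        simp only [mem_inter, mem_erase]
        tauto
      rwa [h3]
    constructor
    · intro S hS
      rcases mem_union.1 hS with hS | hS
      · exact hF.ti.1 S (mem_sdiff.1 hS).1
      · obtain ⟨T, hT, rfl⟩ := mem_image.1 hS
        exact (erase_subset _ _).trans (hF.ti.1 T (mem_NN.1 (mem_filter.1 hT).1).1)
    · intro S hS C hC
      rcases mem_union.1 hS with hS | hS
      · rcases mem_union.1 hC with hC | hC
        · exact hF.ti.2 S (mem_sdiff.1 hS).1 C (mem_sdiff.1 hC).1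
        · obtain ⟨T, hT, rfl⟩ := mem_image.1 hC
          rw [inter_comm]
          exact hA T hT S hS
      · obtain ⟨T, hT, rfl⟩ := mem_image.1 hS
        rcases mem_union.1 hC with hC | hC
        · exact hA T hT C hC
        · obtain ⟨T', hT', rfl⟩ := mem_image.1 hC
          exact hB T hT T' hT'
  have hmx := hF.mx _ hti
  unfold wt at hmx
  rw [sum_union hdisj, hI, sum_image] at hmx
  · have h1 : ∑ S ∈ Na, v #(S.erase (m - 1)) = (#Na : ℝ) * v (a - 1) := by
      rw [sum_congr rfl (g := fun _ => v (a - 1)), sum_const, nsmul_eq_mul]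
      intro S hS
      obtain ⟨hSN, hSa⟩ := mem_filter.1 hS
      rw [card_erase_of_mem (mem_NN.1 hSN).2.1, hSa]
    have h2 : ∑ S ∈ Nb, v #S = (#Nb : ℝ) * v b := by
      rw [sum_congr rfl (g := fun _ => v b), sum_const, nsmul_eq_mul]
      intro S hS
      rw [(mem_filter.1 hS).2]
    have h3 := sum_sdiff (f := fun S => v #S) hNbF
    rw [h2] at h3
    rw [h1] at hmx
    linarith
  · intro S hS T hT hST
    have h1 := (mem_NN.1 (mem_filter.1 hS).1).2.1
    have h2 := (mem_NN.1 (mem_filter.1 hT).1).2.1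
    have h3 := congrArg (insert (m - 1)) hST
    simp only at h3
    rwa [insert_erase h1, insert_erase h2] at h3

/-- B2 -/
theorem b2 : B2Stm := by
  intro t m v F ht htm hv hF S hS hne
  obtain ⟨hB, -⟩ := b1 t m v F ht htm hF
  have hSm := card_le_card (hF.ti.1 S (mem_NN.1 hS).1)
  rw [card_range] at hSm
  obtain ⟨hvS, htS⟩ := hB S hS
  obtain ⟨b, hb⟩ : ∃ b, #S + b = m + t := ⟨m + t - #S, by omega⟩
  have hab : #S ≠ b := by omega
  have k1 := key (a := #S) (b := b) ht htm hF hab hb
  have hNa : (0 : ℝ) < (#((NN m F).filter fun T => #T = #S) : ℝ) := by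
    rw [Nat.cast_pos, card_pos]
    exact ⟨S, mem_filter.2 ⟨hS, rfl⟩⟩
  rcases Finset.eq_empty_or_nonempty ((NN m F).filter fun T => #T = b) with h0 | ⟨T, hT⟩
  · rw [h0, card_empty, Nat.cast_zero, zero_mul] at k1
    have := hv.nn (#S - 1)
    have h1 : v (#S - 1) ≤ 0 := by
      by_contra hlt
      push Not at hlt
      have := mul_pos hNa hlt
      linarith
    linarith
  · exfalso
    obtain ⟨hTN, hTb⟩ := mem_filter.1 hT
    obtain ⟨hvT, htT⟩ := hB T hTN
    rw [hTb] at hvT htT
    have hNb : (0 : ℝ) < (#((NN m F).filter fun T => #T = b) : ℝ) := by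
      rw [Nat.cast_pos, card_pos]
      exact ⟨T, hT⟩
    have k2 := key (a := b) (b := #S) ht htm hF hab.symm (by omega)
    have k3 := hv.K2 (#S) b hab hb htS htT hvS hvT
    have k4 := mul_le_mul k1 k2 (mul_nonneg hNb.le (hv.nn _)) (mul_nonneg hNb.le hvT.le)
    have k5 : (#((NN m F).filter fun T => #T = #S) : ℝ) * (#((NN m F).filter fun T => #T = b) : ℝ) *
        (v (#S) * v b) < (#((NN m F).filter fun T => #T = #S) : ℝ) *
        (#((NN m F).filter fun T => #T = b) : ℝ) * (v (#S - 1) * v (b - 1)) :=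
      mul_lt_mul_of_pos_left k3 (mul_pos hNa hNb)
    nlinarith

/-- B4 -/
theorem b4 : B4Stm := by
  intro t m v F ht htm hv hF hne
  obtain ⟨hB, hB1⟩ := b1 t m v F ht htm hF
  have hm1 : m - 1 < m := by omega
  have hX : ∀ S ∈ NN m F, ∀ C ∈ F, m - 1 ∈ C → t + 1 ≤ #(S ∩ C) := by
    intro S hS C hC hτ
    have h1 := hF.ti.2 S (mem_NN.1 hS).1 C hC
    by_contra hlt
    obtain ⟨h2, h3⟩ := hB1 S hS C hC hτ (by omega)
    have h4 := hne S hS
    have h5 := b2 t m v F ht htm hv hF S hS h4
    have h6 := b2 t m v F ht htm hv hF C h3 (hne C h3)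
    have h7 := hv.K2 (#S) (#C) (by omega) h2 (hB S hS).2 (hB C h3).2 (hB S hS).1 (hB C h3).1
    rw [h5, h6, mul_zero] at h7
    have h8 := mul_pos (hB S hS).1 (hB C h3).1
    linarith
  set G := F ∪ (NN m F).image (fun S => S.erase (m - 1)) with hG
  have hGti : ∀ S ∈ G, ∀ C ∈ G, t ≤ #(S ∩ C) := by
    have hA : ∀ S ∈ NN m F, ∀ C ∈ F, t ≤ #(S.erase (m - 1) ∩ C) := fun S hS C hC =>
      card_erase_inter (hF.ti.2 S (mem_NN.1 hS).1 C hC) fun hτ => hX S hS C hC hτ
    have hA' : ∀ S ∈ NN m F, ∀ C ∈ NN m F, t ≤ #(S.erase (m - 1) ∩ C.erase (m - 1)) := by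
      intro S hS C hC
      have h3 : S.erase (m - 1) ∩ C.erase (m - 1) = S.erase (m - 1) ∩ C := by
        ext y
        simp only [mem_inter, mem_erase]
        tauto
      rw [h3]
      exact hA S hS C (mem_NN.1 hC).1
    intro S hS C hC
    rcases mem_union.1 hS with hS | hS
    · rcases mem_union.1 hC with hC | hC
      · exact hF.ti.2 S hS C hC
      · obtain ⟨T, hT, rfl⟩ := mem_image.1 hC
        rw [inter_comm]
        exact hA T hT S hS
    · obtain ⟨T, hT, rfl⟩ := mem_image.1 hS
      rcases mem_union.1 hC with hC | hC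
      · exact hA T hT C hC
      · obtain ⟨T', hT', rfl⟩ := mem_image.1 hC
        exact hA' T hT T' hT'
  have hGe : ∀ S ∈ F, S.erase (m - 1) ∈ G := by
    intro S hS
    by_cases h : S.erase (m - 1) ∈ F
    · exact mem_union_left _ h
    · by_cases hτ : m - 1 ∈ S
      · exact mem_union_right _ (mem_image.2 ⟨S, mem_NN.2 ⟨hS, hτ, h⟩, rfl⟩)
      · rw [erase_eq_of_notMem hτ] at h
        exact absurd hS h
  have hGm : ∀ S ∈ G, S ⊆ range m := by
    intro S hS
    rcases mem_union.1 hS with hS | hS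
    · exact hF.ti.1 S hS
    · obtain ⟨T, hT, rfl⟩ := mem_image.1 hS
      exact (erase_subset _ _).trans (hF.ti.1 T (mem_NN.1 hT).1)
  refine ⟨G.filter fun S => m - 1 ∉ S, ⟨?_, ?_⟩, ?_⟩
  · intro S hS x hx
    obtain ⟨hSG, hτ⟩ := mem_filter.1 hS
    have h1 := mem_range.1 (hGm S hSG hx)
    have h2 : x ≠ m - 1 := by
      rintro rfl
      exact hτ hx
    rw [mem_range]
    omega
  · intro S hS C hC
    exact hGti S (mem_filter.1 hS).1 C (mem_filter.1 hC).1
  · unfold wt
    rw [sum_add_distrib, ← sum_filter_add_sum_filter_not F (fun S => m - 1 ∉ S)]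
    refine add_le_add ?_ ?_
    · refine sum_le_sum_of_subset_of_nonneg ?_ fun S _ _ => hv.nn _
      intro S hS
      rw [mem_filter] at hS ⊢
      exact ⟨mem_union_left _ hS.1, hS.2⟩
    · have h1 : ∑ S ∈ F.filter (fun S => ¬ (m - 1 ∉ S)), v #S =
          ∑ T ∈ (F.filter (fun S => ¬ (m - 1 ∉ S))).image (fun S => S.erase (m - 1)),
            v (#T + 1) := by
        rw [sum_image]
        · refine sum_congr rfl fun S hS => ?_
          have hτ : m - 1 ∈ S := not_not.1 (mem_filter.1 hS).2
          rw [card_erase_add_one hτ]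
        · intro S hS T hT hST
          have h1 : m - 1 ∈ S := not_not.1 (mem_filter.1 hS).2
          have h2 : m - 1 ∈ T := not_not.1 (mem_filter.1 hT).2
          have h3 := congrArg (insert (m - 1)) hST
          simp only at h3
          rwa [insert_erase h1, insert_erase h2] at h3
      rw [h1]
      refine sum_le_sum_of_subset_of_nonneg ?_ fun S _ _ => hv.nn _
      intro T hT
      obtain ⟨S, hS, rfl⟩ := mem_image.1 hT
      exact mem_filter.2 ⟨hGe S (mem_filter.1 hS).1, notMem_erase _ _⟩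

end Pool.Agent.Helper43.MS
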